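import Mathlib
import Pool.Agent.R175.MultiTiling

/-!
# An irreducible monohedral double tiling with a parallelogram as prototile

The prototile is the rectangle `[0,3] × [0,1]`; the double tiling has 16 tiles per period, the lattice of
periods being `6ℤ + 4ℤ i`. Its overlap graph contains a 5-cycle.
-/

set_option autoImplicit false

namespace Pool.Agent.Results.MP_5dc1dd_co.Rectangle

open Set Pool.Agent.R175.MultiTiling

/-- A parallelogram: `{a + s u + t v | 0 ≤ s ≤ 1, 0 ≤ t ≤ 1}` with `u`, `v` linearly independent. -/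
def IsParallelogram (P : Set ℂ) : Prop :=
  ∃ a u v : ℂ, LinearIndependent ℝ ![u, v] ∧
    P = {z | ∃ s t : ℝ, 0 ≤ s ∧ s ≤ 1 ∧ 0 ≤ t ∧ t ≤ 1 ∧ z = a + s • u + t • v}

/-- The rectangle `[0,3] × [0,1]`. -/
def base : Set ℂ := Icc (0 : ℝ) 3 ×ℂ Icc (0 : ℝ) 1

theorem base_par : IsParallelogram base := by
  refine ⟨0, 3, Complex.I, ?_, ?_⟩
  · rw [LinearIndependent.pair_iff]
    intro s t h
    have h1 := congrArg Complex.re h
    have h2 := congrArg Complex.im h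
    simp at h1 h2
    exact ⟨h1, h2⟩
  · ext z
    constructor
    · intro hz
      rw [base, Complex.mem_reProdIm] at hz
      obtain ⟨⟨h1, h2⟩, h3, h4⟩ := hz
      refine ⟨z.re / 3, z.im, by positivity, by linarith, h3, h4, ?_⟩
      apply Complex.ext <;> simp
    · rintro ⟨s, t, h1, h2, h3, h4, rfl⟩
      have e1 : (0 + s • (3 : ℂ) + t • Complex.I).re = s * 3 := by simp
      have e2 : (0 + s • (3 : ℂ) + t • Complex.I).im = t := by simp
      rw [base, Complex.mem_reProdIm, e1, e2]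
      exact ⟨⟨by linarith, by linarith⟩, h3, h4⟩

/-- Abscissa of the lower left corner of the tile number `k`. -/
def a : Fin 16 → ℤ := ![0, 0, 1, 1, 1, 2, 2, 2, 3, 3, 4, 4, 4, 5, 5, 5]

/-- Ordinate of the lower left corner of the tile number `k`. -/
def b : Fin 16 → ℤ := ![0, 1, 0, 2, 3, 0, 1, 1, 0, 3, 0, 1, 2, 0, 1, 3]

/-- Is tile number `k` horizontal? -/
def hor : Fin 16 → Bool :=
  ![true, false, false, true, true, true, true, false, false, true, true, false, true, false, true, true]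

/-- Width. -/
def w (k : Fin 16) : ℤ := if hor k then 3 else 1

/-- Height. -/
def h (k : Fin 16) : ℤ := if hor k then 1 else 3

/-- The double tiling. -/
def F : Fin 16 × ℤ × ℤ → Set ℂ := fun i =>
  Icc ((a i.1 + 6 * i.2.1 : ℤ) : ℝ) ((a i.1 + 6 * i.2.1 + w i.1 : ℤ) : ℝ) ×ℂ
    Icc ((b i.1 + 4 * i.2.2 : ℤ) : ℝ) ((b i.1 + 4 * i.2.2 + h i.1 : ℤ) : ℝ)

theorem w_pos (k : Fin 16) : 0 < w k ∧ w k ≤ 6 := by
  unfold w; split <;> norm_num

theorem h_pos (k : Fin 16) : 0 < h k ∧ h k ≤ 4 := by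
  unfold h; split <;> norm_num

/-- The two tiles over a cell. -/
theorem two : ∀ r : Fin 6, ∀ s : Fin 4, ∃ k k' : Fin 16, k ≠ k' ∧ ∀ j : Fin 16,
    (((r : ℕ) : ℤ) - a j) % 6 < w j ∧ (((s : ℕ) : ℤ) - b j) % 4 < h j ↔ j = k ∨ j = k' := by
  decide

/-- The cell `(P, Q)` is covered by the tile `i`. -/
def cov (P Q : ℤ) (i : Fin 16 × ℤ × ℤ) : Prop :=
  (a i.1 + 6 * i.2.1 ≤ P ∧ P < a i.1 + 6 * i.2.1 + w i.1) ∧
    (b i.1 + 4 * i.2.2 ≤ Q ∧ Q < b i.1 + 4 * i.2.2 + h i.1)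

theorem cov_iff (P Q : ℤ) (k : Fin 16) (m n : ℤ) : cov P Q (k, m, n) ↔
    ((P - a k) % 6 < w k ∧ (Q - b k) % 4 < h k) ∧ m = (P - a k) / 6 ∧ n = (Q - b k) / 4 := by
  obtain ⟨w1, w2⟩ := w_pos k
  obtain ⟨h1, h2⟩ := h_pos k
  unfold cov
  dsimp only
  generalize a k = A at *
  generalize b k = B at *
  generalize w k = W at *
  generalize h k = H at *
  constructor
  · rintro ⟨⟨g1, g2⟩, g3, g4⟩
    refine ⟨⟨?_, ?_⟩, ?_, ?_⟩ <;> omega
  · rintro ⟨⟨g1, g2⟩, g3, g4⟩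
    refine ⟨⟨?_, ?_⟩, ?_, ?_⟩ <;> omega

theorem count (P Q : ℤ) : {i | cov P Q i}.encard = 2 := by
  obtain ⟨k, k', hne, hk⟩ := two ⟨(P % 6).toNat, by omega⟩ ⟨(Q % 4).toNat, by omega⟩
  have e : {i | cov P Q i} = {(k, (P - a k) / 6, (Q - b k) / 4), (k', (P - a k') / 6, (Q - b k') / 4)} := by
    ext ⟨j, m, n⟩
    have hj := hk j
    rw [mem_ofPred_eq, cov_iff]
    have e1 : (((P % 6).toNat : ℤ) - a j) % 6 = (P - a j) % 6 := by
      rw [Int.toNat_of_nonneg (by omega)]; omega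
    have e2 : (((Q % 4).toNat : ℤ) - b j) % 4 = (Q - b j) % 4 := by
      rw [Int.toNat_of_nonneg (by omega)]; omega
    dsimp only at hj
    rw [e1, e2] at hj
    rw [hj]
    simp only [mem_insert_iff, mem_singleton_iff, Prod.mk.injEq]
    constructor
    · rintro ⟨rfl | rfl, h2, h3⟩
      · exact Or.inl ⟨rfl, h2, h3⟩
      · exact Or.inr ⟨rfl, h2, h3⟩
    · rintro (⟨rfl, h2, h3⟩ | ⟨rfl, h2, h3⟩)
      · exact ⟨Or.inl rfl, h2, h3⟩
      · exact ⟨Or.inr rfl, h2, h3⟩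
  rw [e, encard_pair]
  intro heq
  exact hne (Prod.mk.inj heq).1

theorem interior_F (i : Fin 16 × ℤ × ℤ) : interior (F i) =
    Ioo ((a i.1 + 6 * i.2.1 : ℤ) : ℝ) ((a i.1 + 6 * i.2.1 + w i.1 : ℤ) : ℝ) ×ℂ
    Ioo ((b i.1 + 4 * i.2.2 : ℤ) : ℝ) ((b i.1 + 4 * i.2.2 + h i.1 : ℤ) : ℝ) := by
  rw [F, Complex.interior_reProdIm, interior_Icc, interior_Icc]

theorem closed_F (i : Fin 16 × ℤ × ℤ) : IsClosed (F i) := by
  unfold F
  exact IsClosed.reProdIm isClosed_Icc isClosed_Icc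

theorem interior_iff {z : ℂ} (i : Fin 16 × ℤ × ℤ) (hz : z ∉ frontier (F i)) :
    z ∈ interior (F i) ↔ cov ⌊z.re⌋ ⌊z.im⌋ i := by
  have hz' : z ∈ F i → z ∈ interior (F i) := by
    intro h1
    by_contra h2
    exact hz ((closed_F i).frontier_eq ▸ ⟨h1, h2⟩)
  unfold cov
  rw [Int.le_floor, Int.le_floor, Int.floor_lt, Int.floor_lt]
  constructor
  · intro h1
    rw [interior_F, Complex.mem_reProdIm] at h1
    obtain ⟨⟨g1, g2⟩, g3, g4⟩ := h1
    exact ⟨⟨g1.le, g2⟩, g3.le, g4⟩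
  · rintro ⟨⟨g1, g2⟩, g3, g4⟩
    apply hz'
    rw [F, Complex.mem_reProdIm]
    exact ⟨⟨g1, g2.le⟩, g3, g4.le⟩

theorem rect_polygon {x0 x1 y0 y1 : ℝ} (hx : x0 < x1) (hy : y0 < y1) :
    IsConvexPolygon (Icc x0 x1 ×ℂ Icc y0 y1) := by
  refine ⟨?_, {x0, x1} ×ℂ {y0, y1}, ?_, ?_⟩
  · rw [Complex.interior_reProdIm, interior_Icc, interior_Icc]
    refine ⟨⟨(x0 + x1) / 2, (y0 + y1) / 2⟩, ?_⟩
    rw [Complex.mem_reProdIm]
    exact ⟨⟨by change x0 < (x0 + x1) / 2; linarith, by change (x0 + x1) / 2 < x1; linarith⟩,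
      by change y0 < (y0 + y1) / 2; linarith, by change (y0 + y1) / 2 < y1; linarith⟩
  · apply Set.Finite.subset (s := {⟨x0, y0⟩, ⟨x0, y1⟩, ⟨x1, y0⟩, ⟨x1, y1⟩}) (by simp)
    intro z hz
    rw [Complex.mem_reProdIm] at hz
    obtain ⟨h1, h2⟩ := hz
    simp only [mem_insert_iff, mem_singleton_iff] at h1 h2 ⊢
    rcases h1 with h1 | h1 <;> rcases h2 with h2 | h2
    · left; exact Complex.ext h1 h2
    · right; left; exact Complex.ext h1 h2
    · right; right; left; exact Complex.ext h1 h2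
    · right; right; right; exact Complex.ext h1 h2
  · rw [Complex.convexHull_reProdIm, convexHull_pair, convexHull_pair, segment_eq_Icc hx.le,
      segment_eq_Icc hy.le]

theorem F_tiling : IsMultipleTiling F 2 where
  countable := inferInstance
  polygon := by
    intro i
    apply rect_polygon
    · have := (w_pos i.1).1
      exact_mod_cast (by omega : a i.1 + 6 * i.2.1 < a i.1 + 6 * i.2.1 + w i.1)
    · have := (h_pos i.1).1
      exact_mod_cast (by omega : b i.1 + 4 * i.2.2 < b i.1 + 4 * i.2.2 + h i.1)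
  density := by
    intro z hz
    have hs : {i | z ∈ interior (F i)} = {i | cov ⌊z.re⌋ ⌊z.im⌋ i} := by
      ext i
      exact interior_iff i (hz i)
    rw [hs]
    exact_mod_cast count _ _

/-- Translation of the plane. -/
noncomputable def tr (A B : ℝ) : ℂ ≃ᵢ ℂ := IsometryEquiv.addRight (⟨A, B⟩ : ℂ)

/-- The reflection in the diagonal. -/
noncomputable def sw : ℂ ≃ᵢ ℂ :=
  IsometryEquiv.mk' (fun z => ⟨z.im, z.re⟩) (fun z => ⟨z.im, z.re⟩) (fun z => rfl)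
    (by
      apply Isometry.of_dist_eq
      intro z w
      rw [Complex.dist_eq_re_im, Complex.dist_eq_re_im]
      congr 1
      exact add_comm _ _)

theorem mono : Monohedral F base := by
  intro i
  by_cases hi : hor i.1 = true
  · refine ⟨tr ((a i.1 + 6 * i.2.1 : ℤ) : ℝ) ((b i.1 + 4 * i.2.2 : ℤ) : ℝ), ?_⟩
    have hw : w i.1 = 3 := by simp [w, hi]
    have hh : h i.1 = 1 := by simp [h, hi]
    ext z
    rw [F, hw, hh, Complex.mem_reProdIm]
    generalize (a i.1 + 6 * i.2.1 : ℤ) = A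
    generalize (b i.1 + 4 * i.2.2 : ℤ) = B
    push_cast
    constructor
    · rintro ⟨⟨g1, g2⟩, g3, g4⟩
      refine ⟨⟨z.re - A, z.im - B⟩, ?_, ?_⟩
      · rw [base, Complex.mem_reProdIm]
        exact ⟨⟨by change 0 ≤ z.re - A; linarith, by change z.re - A ≤ 3; linarith⟩,
          by change 0 ≤ z.im - B; linarith, by change z.im - B ≤ 1; linarith⟩
      · apply Complex.ext <;> simp [tr]
    · rintro ⟨u, hu, rfl⟩
      rw [base, Complex.mem_reProdIm] at hu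
      obtain ⟨⟨g1, g2⟩, g3, g4⟩ := hu
      simp only [tr, IsometryEquiv.addRight_apply, Complex.add_re, Complex.add_im]
      exact ⟨⟨by linarith, by linarith⟩, by linarith, by linarith⟩
  · refine ⟨sw.trans (tr ((a i.1 + 6 * i.2.1 : ℤ) : ℝ) ((b i.1 + 4 * i.2.2 : ℤ) : ℝ)), ?_⟩
    have hw : w i.1 = 1 := by simp [w, hi]
    have hh : h i.1 = 3 := by simp [h, hi]
    ext z
    rw [F, hw, hh, Complex.mem_reProdIm]
    generalize (a i.1 + 6 * i.2.1 : ℤ) = A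
    generalize (b i.1 + 4 * i.2.2 : ℤ) = B
    push_cast
    constructor
    · rintro ⟨⟨g1, g2⟩, g3, g4⟩
      refine ⟨⟨z.im - B, z.re - A⟩, ?_, ?_⟩
      · rw [base, Complex.mem_reProdIm]
        exact ⟨⟨by change 0 ≤ z.im - B; linarith, by change z.im - B ≤ 3; linarith⟩,
          by change 0 ≤ z.re - A; linarith, by change z.re - A ≤ 1; linarith⟩
      · apply Complex.ext
        · change (z.re - A) + A = z.re
          ring
        · change (z.im - B) + B = z.im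
          ring
    · rintro ⟨u, hu, rfl⟩
      rw [base, Complex.mem_reProdIm] at hu
      obtain ⟨⟨g1, g2⟩, g3, g4⟩ := hu
      change ((A : ℝ) ≤ u.im + A ∧ u.im + A ≤ (A : ℝ) + 1) ∧ ((B : ℝ) ≤ u.re + B ∧ u.re + B ≤ (B : ℝ) + 3)
      exact ⟨⟨by linarith, by linarith⟩, by linarith, by linarith⟩

/-- The centre of a unit cell lies on no frontier. -/
theorem not_frontier (P Q : ℤ) (i : Fin 16 × ℤ × ℤ) : (⟨P + 1 / 2, Q + 1 / 2⟩ : ℂ) ∉ frontier (F i) := by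
  rw [(closed_F i).frontier_eq, interior_F]
  rintro ⟨h1, h2⟩
  apply h2
  rw [F, Complex.mem_reProdIm] at h1
  rw [Complex.mem_reProdIm]
  generalize (a i.1 + 6 * i.2.1 : ℤ) = A at *
  generalize (b i.1 + 4 * i.2.2 : ℤ) = B at *
  generalize w i.1 = W at *
  generalize h i.1 = H at *
  obtain ⟨⟨g1, g2⟩, g3, g4⟩ := h1
  change (A : ℝ) ≤ P + 1 / 2 at g1
  change (P : ℝ) + 1 / 2 ≤ ((A + W : ℤ) : ℝ) at g2
  change (B : ℝ) ≤ Q + 1 / 2 at g3
  change (Q : ℝ) + 1 / 2 ≤ ((B + H : ℤ) : ℝ) at g4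
  have k1 : A ≤ P := by
    have : (A : ℝ) < P + 1 := by linarith
    have : A < P + 1 := by exact_mod_cast this
    omega
  have k2 : P < A + W := by
    have : (P : ℝ) < ((A + W : ℤ) : ℝ) := by linarith
    exact_mod_cast this
  have k3 : B ≤ Q := by
    have : (B : ℝ) < Q + 1 := by linarith
    have : B < Q + 1 := by exact_mod_cast this
    omega
  have k4 : Q < B + H := by
    have : (Q : ℝ) < ((B + H : ℤ) : ℝ) := by linarith
    exact_mod_cast this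
  have l1 : (A : ℝ) ≤ P := by exact_mod_cast k1
  have l2 : (P : ℝ) + 1 ≤ ((A + W : ℤ) : ℝ) := by exact_mod_cast (by omega : P + 1 ≤ A + W)
  have l3 : (B : ℝ) ≤ Q := by exact_mod_cast k3
  have l4 : (Q : ℝ) + 1 ≤ ((B + H : ℤ) : ℝ) := by exact_mod_cast (by omega : Q + 1 ≤ B + H)
  refine ⟨⟨?_, ?_⟩, ?_, ?_⟩
  · change (A : ℝ) < P + 1 / 2; linarith
  · change (P : ℝ) + 1 / 2 < ((A + W : ℤ) : ℝ); linarith
  · change (B : ℝ) < Q + 1 / 2; linarith
  · change (Q : ℝ) + 1 / 2 < ((B + H : ℤ) : ℝ); linarith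

/-- The two tiles over a cell, when they are known. -/
theorem pt (P Q : ℤ) (s t : Fin 16) (hst : ∀ j : Fin 16,
      (P - a j) % 6 < w j ∧ (Q - b j) % 4 < h j → (j = s ∨ j = t) ∧ (P - a j) / 6 = 0 ∧ (Q - b j) / 4 = 0) :
    (∀ i, (⟨P + 1 / 2, Q + 1 / 2⟩ : ℂ) ∉ frontier (F i)) ∧
      ∀ i, (⟨P + 1 / 2, Q + 1 / 2⟩ : ℂ) ∈ interior (F i) → i = (s, 0, 0) ∨ i = (t, 0, 0) := by
  refine ⟨not_frontier P Q, ?_⟩
  intro i hi
  rw [interior_iff i (not_frontier P Q i)] at hi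
  have f1 : ⌊(⟨P + 1 / 2, Q + 1 / 2⟩ : ℂ).re⌋ = P := by
    rw [Int.floor_eq_iff]
    change (P : ℝ) ≤ P + 1 / 2 ∧ (P : ℝ) + 1 / 2 < P + 1
    constructor <;> linarith
  have f2 : ⌊(⟨P + 1 / 2, Q + 1 / 2⟩ : ℂ).im⌋ = Q := by
    rw [Int.floor_eq_iff]
    change (Q : ℝ) ≤ Q + 1 / 2 ∧ (Q : ℝ) + 1 / 2 < Q + 1
    constructor <;> linarith
  rw [f1, f2] at hi
  obtain ⟨j, m, n⟩ := i
  rw [cov_iff] at hi
  obtain ⟨h1, h2, h3⟩ := hi
  obtain ⟨g1, g2, g3⟩ := hst j h1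
  rw [g2] at h2
  rw [g3] at h3
  subst h2 h3
  rcases g1 with rfl | rfl
  · exact Or.inl rfl
  · exact Or.inr rfl

/-- The 5-cycle of tiles. -/
def tt : ℕ → Fin 16 × ℤ × ℤ
  | 0 => (0, 0, 0)
  | 1 => (2, 0, 0)
  | 2 => (3, 0, 0)
  | 3 => (8, 0, 0)
  | 4 => (5, 0, 0)
  | _ => (0, 0, 0)

/-- The points in the pairwise overlaps. -/
noncomputable def zz : ℕ → ℂ
  | 0 => ⟨((1 : ℤ) : ℝ) + 1 / 2, ((0 : ℤ) : ℝ) + 1 / 2⟩
  | 1 => ⟨((1 : ℤ) : ℝ) + 1 / 2, ((2 : ℤ) : ℝ) + 1 / 2⟩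
  | 2 => ⟨((3 : ℤ) : ℝ) + 1 / 2, ((2 : ℤ) : ℝ) + 1 / 2⟩
  | 3 => ⟨((3 : ℤ) : ℝ) + 1 / 2, ((0 : ℤ) : ℝ) + 1 / 2⟩
  | _ => ⟨((2 : ℤ) : ℝ) + 1 / 2, ((0 : ℤ) : ℝ) + 1 / 2⟩

theorem irreducible : ¬ Reducible F := by
  apply not_reducible_of_cycle 2 tt zz rfl
  intro m hm
  interval_cases m
  · exact pt 1 0 0 2 (by decide)
  · exact pt 1 2 2 3 (by decide)
  · exact pt 3 2 3 8 (by decide)
  · exact pt 3 0 8 5 (by decide)
  · exact pt 2 0 5 0 (by decide)

/-- There is a parallelogram that is the prototile of an irreducible monohedral multiple tiling of density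
two. -/
theorem result : ∃ P : Set ℂ, IsParallelogram P ∧ ∃ (ι : Type) (F : ι → Set ℂ),
    IsMultipleTiling F 2 ∧ Monohedral F P ∧ ¬ Reducible F :=
  ⟨base, base_par, Fin 16 × ℤ × ℤ, F, F_tiling, mono, irreducible⟩

end Pool.Agent.Results.MP_5dc1dd_co.Rectangle
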