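import Mathlib
import Pool.Agent.R175.MultiTiling

/-!
# An irreducible monohedral double tiling with a triangular prototile

The prototile is the right isosceles triangle with vertices `0`, `2`, `2i`; the double tiling consists of the
translates of four triangles by the lattice `2ℤ + 2ℤ i`.
-/

set_option autoImplicit false

namespace Pool.Agent.Results.MP_5dc1dd_co.Triangle

open Set Pool.Agent.R175.MultiTiling

/-- A triangle: the convex hull of three affinely independent points. -/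
def IsTriangle (P : Set ℂ) : Prop :=
  ∃ v : Fin 3 → ℂ, AffineIndependent ℝ v ∧ P = convexHull ℝ (range v)

/-- The triangle with vertices `0`, `2`, `2i`. -/
def base : Set ℂ := {z | 0 ≤ z.re ∧ 0 ≤ z.im ∧ z.re + z.im ≤ 2}

/-- The vertices of `base`. -/
def vtx : Fin 3 → ℂ := ![⟨0, 0⟩, ⟨2, 0⟩, ⟨0, 2⟩]

theorem base_eq : base = convexHull ℝ (range vtx) := by
  apply Subset.antisymm
  · rintro z ⟨h1, h2, h3⟩
    have hs : z = ∑ i : Fin 3, (![1 - z.re / 2 - z.im / 2, z.re / 2, z.im / 2] i : ℝ) • vtx i := by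
      rw [Fin.sum_univ_three]
      apply Complex.ext <;> simp [vtx]
    rw [hs]
    apply (convex_convexHull ℝ (range vtx)).sum_mem
    · intro i _
      fin_cases i <;> simp <;> linarith
    · rw [Fin.sum_univ_three]
      simp
      ring
    · intro i _
      exact subset_convexHull ℝ _ (mem_range_self i)
  · apply convexHull_min
    · rintro _ ⟨i, rfl⟩
      fin_cases i <;> simp [vtx, base]
    · intro z hz w hw a b ha hb hab
      obtain ⟨h1, h2, h3⟩ := hz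
      obtain ⟨k1, k2, k3⟩ := hw
      have : b = 1 - a := by linarith
      subst this
      refine ⟨?_, ?_, ?_⟩ <;> simp <;> nlinarith

theorem vtx_aff : AffineIndependent ℝ vtx := by
  rw [affineIndependent_iff_linearIndependent_vsub ℝ _ (0 : Fin 3), Fintype.linearIndependent_iff]
  intro g hg
  have e : ∀ i : {i : Fin 3 // i ≠ 0}, i = ⟨1, by decide⟩ ∨ i = ⟨2, by decide⟩ := by decide
  have hu : (Finset.univ : Finset {i : Fin 3 // i ≠ 0}) = {⟨1, by decide⟩, ⟨2, by decide⟩} := by decide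
  rw [hu, Finset.sum_pair (by decide)] at hg
  have h1 := congrArg Complex.re hg
  have h2 := congrArg Complex.im hg
  simp [vtx] at h1 h2
  intro i
  rcases e i with rfl | rfl
  · exact h1
  · exact h2

/-- The isometry `z ↦ (A + σ re z, B + τ im z)` for signs `σ`, `τ`. -/
noncomputable def mv (σ τ : ℝ) (hσ : σ * σ = 1) (hτ : τ * τ = 1) (A B : ℝ) : ℂ ≃ᵢ ℂ :=
  IsometryEquiv.mk' (fun z => ⟨A + σ * z.re, B + τ * z.im⟩) (fun z => ⟨σ * (z.re - A), τ * (z.im - B)⟩)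
    (by
      intro z
      apply Complex.ext
      · change A + σ * (σ * (z.re - A)) = z.re
        rw [← mul_assoc, hσ]; ring
      · change B + τ * (τ * (z.im - B)) = z.im
        rw [← mul_assoc, hτ]; ring)
    (by
      apply Isometry.of_dist_eq
      intro z w
      rw [Complex.dist_eq_re_im, Complex.dist_eq_re_im]
      congr 1
      change (A + σ * z.re - (A + σ * w.re)) ^ 2 + (B + τ * z.im - (B + τ * w.im)) ^ 2 = _
      calc _ = (σ * σ) * (z.re - w.re) ^ 2 + (τ * τ) * (z.im - w.im) ^ 2 := by ring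
        _ = _ := by rw [hσ, hτ]; ring)

theorem mem_mv (σ τ : ℝ) (hσ : σ * σ = 1) (hτ : τ * τ = 1) (A B : ℝ) (S : Set ℂ) (z : ℂ) :
    z ∈ mv σ τ hσ hτ A B '' S ↔ (⟨σ * (z.re - A), τ * (z.im - B)⟩ : ℂ) ∈ S := by
  constructor
  · rintro ⟨w, hw, rfl⟩
    have : (⟨σ * ((A + σ * w.re) - A), τ * ((B + τ * w.im) - B)⟩ : ℂ) = w := by
      apply Complex.ext
      · change σ * ((A + σ * w.re) - A) = w.re
        calc _ = (σ * σ) * w.re := by ring
          _ = _ := by rw [hσ]; ring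
      · change τ * ((B + τ * w.im) - B) = w.im
        calc _ = (τ * τ) * w.im := by ring
          _ = _ := by rw [hτ]; ring
    change (⟨σ * ((A + σ * w.re) - A), τ * ((B + τ * w.im) - B)⟩ : ℂ) ∈ S
    rw [this]; exact hw
  · intro h
    refine ⟨_, h, ?_⟩
    apply Complex.ext
    · change A + σ * (σ * (z.re - A)) = z.re
      rw [← mul_assoc, hσ]; ring
    · change B + τ * (τ * (z.im - B)) = z.im
      rw [← mul_assoc, hτ]; ring

theorem interior_base : interior base = {z | 0 < z.re ∧ 0 < z.im ∧ z.re + z.im < 2} := by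
  apply Subset.antisymm
  · intro z hz
    obtain ⟨t, ht, h1⟩ := exists_move hz (-1)
    obtain ⟨t', ht', h2⟩ := exists_move hz (-Complex.I)
    obtain ⟨t'', ht'', h3⟩ := exists_move hz 1
    have a1 := h1.1
    have a2 := h2.2.1
    have a3 := h3.2.2
    simp at a1 a2 a3
    exact ⟨by linarith, by linarith, by linarith⟩
  · apply interior_maximal
    · rintro z ⟨h1, h2, h3⟩
      exact ⟨h1.le, h2.le, h3.le⟩
    · apply IsOpen.inter (isOpen_lt continuous_const Complex.continuous_re)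
      apply IsOpen.inter (isOpen_lt continuous_const Complex.continuous_im)
      exact isOpen_lt (Complex.continuous_re.add Complex.continuous_im) continuous_const

theorem closed_base : IsClosed base := by
  apply IsClosed.inter (isClosed_le continuous_const Complex.continuous_re)
  apply IsClosed.inter (isClosed_le continuous_const Complex.continuous_im)
  exact isClosed_le (Complex.continuous_re.add Complex.continuous_im) continuous_const

theorem mem_interior_mv (σ τ : ℝ) (hσ : σ * σ = 1) (hτ : τ * τ = 1) (A B : ℝ) (z : ℂ) :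
    z ∈ interior (mv σ τ hσ hτ A B '' base) ↔
      0 < σ * (z.re - A) ∧ 0 < τ * (z.im - B) ∧ σ * (z.re - A) + τ * (z.im - B) < 2 := by
  have := (mv σ τ hσ hτ A B).toHomeomorph.image_interior base
  have h2 : interior (mv σ τ hσ hτ A B '' base) = mv σ τ hσ hτ A B '' interior base := this.symm
  rw [h2, mem_mv, interior_base]
  rfl

theorem mem_tile_mv (σ τ : ℝ) (hσ : σ * σ = 1) (hτ : τ * τ = 1) (A B : ℝ) (z : ℂ) :
    z ∈ mv σ τ hσ hτ A B '' base ↔
      0 ≤ σ * (z.re - A) ∧ 0 ≤ τ * (z.im - B) ∧ σ * (z.re - A) + τ * (z.im - B) ≤ 2 := by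
  rw [mem_mv]; rfl

theorem closed_mv (σ τ : ℝ) (hσ : σ * σ = 1) (hτ : τ * τ = 1) (A B : ℝ) :
    IsClosed (mv σ τ hσ hτ A B '' base) :=
  (mv σ τ hσ hτ A B).toHomeomorph.isClosedMap _ closed_base

theorem mem_frontier_mv (σ τ : ℝ) (hσ : σ * σ = 1) (hτ : τ * τ = 1) (A B : ℝ) (z : ℂ) :
    z ∈ frontier (mv σ τ hσ hτ A B '' base) ↔
      (0 ≤ σ * (z.re - A) ∧ 0 ≤ τ * (z.im - B) ∧ σ * (z.re - A) + τ * (z.im - B) ≤ 2) ∧
      ¬ (0 < σ * (z.re - A) ∧ 0 < τ * (z.im - B) ∧ σ * (z.re - A) + τ * (z.im - B) < 2) := by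
  rw [(closed_mv σ τ hσ hτ A B).frontier_eq, mem_sdiff, mem_tile_mv, mem_interior_mv]

theorem sq1 : (1 : ℝ) * 1 = 1 := by norm_num
theorem sqm : (-1 : ℝ) * (-1) = 1 := by norm_num

/-- The placement of the tile with index `(k, m, n)`. -/
noncomputable def pl : Fin 4 × ℤ × ℤ → (ℂ ≃ᵢ ℂ)
  | (0, m, n) => mv 1 1 sq1 sq1 (2 * m) (2 * n)
  | (1, m, n) => mv (-1) 1 sqm sq1 (2 * m) (1 + 2 * n)
  | (2, m, n) => mv 1 (-1) sq1 sqm (1 + 2 * m) (2 * n)
  | (3, m, n) => mv (-1) (-1) sqm sqm (1 + 2 * m) (1 + 2 * n)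

/-- The double tiling. -/
noncomputable def F (i : Fin 4 × ℤ × ℤ) : Set ℂ := pl i '' base

/-- The floor condition. -/
def fc (P Q U V : ℤ) : Fin 4 × ℤ × ℤ → Prop
  | (0, m, n) => 2 * m ≤ P ∧ 2 * n ≤ Q ∧ U ≤ 2 * m + 2 * n + 1
  | (1, m, n) => P ≤ 2 * m - 1 ∧ 2 * n + 1 ≤ Q ∧ 2 * m - 2 * n - 3 ≤ V
  | (2, m, n) => 2 * m + 1 ≤ P ∧ Q ≤ 2 * n - 1 ∧ V ≤ 2 * m - 2 * n + 2
  | (3, m, n) => P ≤ 2 * m ∧ Q ≤ 2 * n ∧ 2 * m + 2 * n ≤ U

theorem fl_ge (x : ℝ) (n : ℤ) : n ≤ ⌊x⌋ ↔ (n : ℝ) ≤ x := Int.le_floor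
theorem fl_le (x : ℝ) (n : ℤ) : ⌊x⌋ ≤ n ↔ x < (n : ℝ) + 1 := by
  rw [← Int.lt_add_one_iff, Int.floor_lt]; push_cast; rfl

theorem interior_iff {z : ℂ} (i : Fin 4 × ℤ × ℤ) (hz : z ∉ frontier (F i)) :
    z ∈ interior (F i) ↔ fc ⌊z.re⌋ ⌊z.im⌋ ⌊z.re + z.im⌋ ⌊z.re - z.im⌋ i := by
  obtain ⟨k, m, n⟩ := i
  fin_cases k
  · change z ∉ frontier (mv 1 1 sq1 sq1 (2 * m) (2 * n) '' base) at hz
    change z ∈ interior (mv 1 1 sq1 sq1 (2 * m) (2 * n) '' base) ↔ _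
    rw [mem_frontier_mv] at hz
    rw [mem_interior_mv]
    change _ ↔ (2 * m ≤ ⌊z.re⌋ ∧ 2 * n ≤ ⌊z.im⌋ ∧ ⌊z.re + z.im⌋ ≤ 2 * m + 2 * n + 1)
    rw [fl_ge, fl_ge, fl_le]
    push_cast
    constructor
    · rintro ⟨h1, h2, h3⟩
      exact ⟨by linarith, by linarith, by linarith⟩
    · rintro ⟨h1, h2, h3⟩
      by_contra hcon
      exact hz ⟨⟨by linarith, by linarith, by linarith⟩, hcon⟩
  · change z ∉ frontier (mv (-1) 1 sqm sq1 (2 * m) (1 + 2 * n) '' base) at hz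
    change z ∈ interior (mv (-1) 1 sqm sq1 (2 * m) (1 + 2 * n) '' base) ↔ _
    rw [mem_frontier_mv] at hz
    rw [mem_interior_mv]
    change _ ↔ (⌊z.re⌋ ≤ 2 * m - 1 ∧ 2 * n + 1 ≤ ⌊z.im⌋ ∧ 2 * m - 2 * n - 3 ≤ ⌊z.re - z.im⌋)
    rw [fl_ge, fl_ge, fl_le]
    push_cast
    constructor
    · rintro ⟨h1, h2, h3⟩
      exact ⟨by linarith, by linarith, by linarith⟩
    · rintro ⟨h1, h2, h3⟩
      by_contra hcon
      exact hz ⟨⟨by linarith, by linarith, by linarith⟩, hcon⟩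
  · change z ∉ frontier (mv 1 (-1) sq1 sqm (1 + 2 * m) (2 * n) '' base) at hz
    change z ∈ interior (mv 1 (-1) sq1 sqm (1 + 2 * m) (2 * n) '' base) ↔ _
    rw [mem_frontier_mv] at hz
    rw [mem_interior_mv]
    change _ ↔ (2 * m + 1 ≤ ⌊z.re⌋ ∧ ⌊z.im⌋ ≤ 2 * n - 1 ∧ ⌊z.re - z.im⌋ ≤ 2 * m - 2 * n + 2)
    rw [fl_ge, fl_le, fl_le]
    push_cast
    constructor
    · rintro ⟨h1, h2, h3⟩
      exact ⟨by linarith, by linarith, by linarith⟩
    · rintro ⟨h1, h2, h3⟩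
      by_contra hcon
      exact hz ⟨⟨by linarith, by linarith, by linarith⟩, hcon⟩
  · change z ∉ frontier (mv (-1) (-1) sqm sqm (1 + 2 * m) (1 + 2 * n) '' base) at hz
    change z ∈ interior (mv (-1) (-1) sqm sqm (1 + 2 * m) (1 + 2 * n) '' base) ↔ _
    rw [mem_frontier_mv] at hz
    rw [mem_interior_mv]
    change _ ↔ (⌊z.re⌋ ≤ 2 * m ∧ ⌊z.im⌋ ≤ 2 * n ∧ 2 * m + 2 * n ≤ ⌊z.re + z.im⌋)
    rw [fl_ge, fl_le, fl_le]
    push_cast
    constructor
    · rintro ⟨h1, h2, h3⟩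
      exact ⟨by linarith, by linarith, by linarith⟩
    · rintro ⟨h1, h2, h3⟩
      by_contra hcon
      exact hz ⟨⟨by linarith, by linarith, by linarith⟩, hcon⟩

theorem fc_forall {P Q U V : ℤ} {a b : Fin 4 × ℤ × ℤ}
    (h : ∀ k m n, fc P Q U V (k, m, n) ↔ (k, m, n) = a ∨ (k, m, n) = b) :
    {i | fc P Q U V i} = {a, b} := by
  ext ⟨k, m, n⟩
  exact h k m n

theorem fin4 (k : Fin 4) : k = 0 ∨ k = 1 ∨ k = 2 ∨ k = 3 := by
  fin_cases k <;> simp

theorem enc2 {P Q U V : ℤ} {a b : Fin 4 × ℤ × ℤ} (hab : a ≠ b)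
    (h : ∀ k m n, fc P Q U V (k, m, n) ↔ (k, m, n) = a ∨ (k, m, n) = b) :
    {i | fc P Q U V i}.encard = 2 := by
  rw [fc_forall h, encard_pair hab]

theorem count (p q r s u v : ℤ) (hr : r = 0 ∨ r = 1) (hs : s = 0 ∨ s = 1) (hu : u = 0 ∨ u = 1)
    (hv : v = 0 ∨ v = 1) : {i | fc (2 * p + r) (2 * q + s) (2 * p + r + (2 * q + s) + u)
      (2 * p + r - (2 * q + s) - v) i}.encard = 2 := by
  rcases hr with rfl | rfl <;> rcases hs with rfl | rfl
  · refine enc2 (a := (0, p, q)) (b := (3, p, q)) (by simp) ?_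
    intro k m n
    rcases fin4 k with rfl | rfl | rfl | rfl <;> simp [fc] <;> omega
  · rcases hu with rfl | rfl <;> rcases hv with rfl | rfl
    · refine enc2 (a := (0, p, q)) (b := (1, p + 1, q)) (by simp) ?_
      intro k m n
      rcases fin4 k with rfl | rfl | rfl | rfl <;> simp [fc] <;> omega
    · refine enc2 (a := (0, p, q)) (b := (2, p - 1, q + 1)) (by simp) ?_
      intro k m n
      rcases fin4 k with rfl | rfl | rfl | rfl <;> simp [fc] <;> omega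
    · refine enc2 (a := (1, p + 1, q)) (b := (3, p, q + 1)) (by simp) ?_
      intro k m n
      rcases fin4 k with rfl | rfl | rfl | rfl <;> simp [fc] <;> omega
    · refine enc2 (a := (2, p - 1, q + 1)) (b := (3, p, q + 1)) (by simp) ?_
      intro k m n
      rcases fin4 k with rfl | rfl | rfl | rfl <;> simp [fc] <;> omega
  · rcases hu with rfl | rfl <;> rcases hv with rfl | rfl
    · refine enc2 (a := (0, p, q)) (b := (1, p + 1, q - 1)) (by simp) ?_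
      intro k m n
      rcases fin4 k with rfl | rfl | rfl | rfl <;> simp [fc] <;> omega
    · refine enc2 (a := (0, p, q)) (b := (2, p, q + 1)) (by simp) ?_
      intro k m n
      rcases fin4 k with rfl | rfl | rfl | rfl <;> simp [fc] <;> omega
    · refine enc2 (a := (1, p + 1, q - 1)) (b := (3, p + 1, q)) (by simp) ?_
      intro k m n
      rcases fin4 k with rfl | rfl | rfl | rfl <;> simp [fc] <;> omega
    · refine enc2 (a := (2, p, q + 1)) (b := (3, p + 1, q)) (by simp) ?_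
      intro k m n
      rcases fin4 k with rfl | rfl | rfl | rfl <;> simp [fc] <;> omega
  · refine enc2 (a := (1, p + 1, q)) (b := (2, p, q + 1)) (by simp) ?_
    intro k m n
    rcases fin4 k with rfl | rfl | rfl | rfl <;> simp [fc] <;> omega

theorem floors (z : ℂ) : ∃ p q r s u v : ℤ, (r = 0 ∨ r = 1) ∧ (s = 0 ∨ s = 1) ∧ (u = 0 ∨ u = 1) ∧
    (v = 0 ∨ v = 1) ∧ ⌊z.re⌋ = 2 * p + r ∧ ⌊z.im⌋ = 2 * q + s ∧
    ⌊z.re + z.im⌋ = 2 * p + r + (2 * q + s) + u ∧ ⌊z.re - z.im⌋ = 2 * p + r - (2 * q + s) - v := by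
  have a1 : ⌊z.re⌋ + ⌊z.im⌋ ≤ ⌊z.re + z.im⌋ := Int.le_floor_add _ _
  have a2 : ⌊z.re + z.im⌋ ≤ ⌊z.re⌋ + ⌊z.im⌋ + 1 := by
    rw [fl_le]
    push_cast
    linarith [Int.lt_floor_add_one z.re, Int.lt_floor_add_one z.im]
  have a3 : ⌊z.re⌋ - ⌊z.im⌋ - 1 ≤ ⌊z.re - z.im⌋ := by
    rw [fl_ge]
    push_cast
    linarith [Int.floor_le z.re, Int.lt_floor_add_one z.im]
  have a4 : ⌊z.re - z.im⌋ ≤ ⌊z.re⌋ - ⌊z.im⌋ := by
    rw [fl_le]
    push_cast
    linarith [Int.floor_le z.im, Int.lt_floor_add_one z.re]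
  refine ⟨⌊z.re⌋ / 2, ⌊z.im⌋ / 2, ⌊z.re⌋ % 2, ⌊z.im⌋ % 2, ⌊z.re + z.im⌋ - ⌊z.re⌋ - ⌊z.im⌋,
    ⌊z.re⌋ - ⌊z.im⌋ - ⌊z.re - z.im⌋, ?_, ?_, ?_, ?_, ?_, ?_, ?_, ?_⟩ <;> omega

theorem convexPolygon_image (g : ℂ ≃ᵢ ℂ) (hg : ∃ f : ℂ →ᵃ[ℝ] ℂ, ∀ z, f z = g z) :
    IsConvexPolygon (g '' base) := by
  obtain ⟨f, hf⟩ := hg
  refine ⟨?_, f '' range vtx, ((finite_range vtx).image f), ?_⟩
  · have h2 : interior (g '' base) = g '' interior base := (g.toHomeomorph.image_interior base).symm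
    rw [h2, image_nonempty]
    refine ⟨⟨1 / 2, 1 / 2⟩, ?_⟩
    rw [interior_base]
    norm_num
  · rw [← AffineMap.image_convexHull, ← base_eq]
    exact image_congr (fun z _ => (hf z).symm)

/-- The affine map underlying `mv`. -/
noncomputable def mvAff (σ τ A B : ℝ) : ℂ →ᵃ[ℝ] ℂ where
  toFun z := ⟨A + σ * z.re, B + τ * z.im⟩
  linear :=
    { toFun := fun z => ⟨σ * z.re, τ * z.im⟩
      map_add' := by
        intro x y
        apply Complex.ext <;> simp <;> ring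
      map_smul' := by
        intro c x
        apply Complex.ext <;> simp <;> ring }
  map_vadd' := by
    intro p v
    apply Complex.ext <;> simp <;> ring

theorem pl_aff (i : Fin 4 × ℤ × ℤ) : ∃ f : ℂ →ᵃ[ℝ] ℂ, ∀ z, f z = pl i z := by
  obtain ⟨k, m, n⟩ := i
  rcases fin4 k with rfl | rfl | rfl | rfl
  · exact ⟨mvAff 1 1 (2 * m) (2 * n), fun z => rfl⟩
  · exact ⟨mvAff (-1) 1 (2 * m) (1 + 2 * n), fun z => rfl⟩
  · exact ⟨mvAff 1 (-1) (1 + 2 * m) (2 * n), fun z => rfl⟩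
  · exact ⟨mvAff (-1) (-1) (1 + 2 * m) (1 + 2 * n), fun z => rfl⟩

theorem F_tiling : IsMultipleTiling F 2 where
  countable := inferInstance
  polygon := fun i => convexPolygon_image _ (pl_aff i)
  density := by
    intro z hz
    have hs : {i | z ∈ interior (F i)} = {i | fc ⌊z.re⌋ ⌊z.im⌋ ⌊z.re + z.im⌋ ⌊z.re - z.im⌋ i} := by
      ext i
      exact interior_iff i (hz i)
    rw [hs]
    obtain ⟨p, q, r, s, u, v, hr, hs', hu, hv, e1, e2, e3, e4⟩ := floors z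
    rw [e1, e2, e3, e4]
    exact_mod_cast count p q r s u v hr hs' hu hv

/-- A point whose coordinates, and their sum and difference, are not integers lies on no frontier. -/
theorem not_frontier {z : ℂ} (h1 : ∀ n : ℤ, z.re ≠ n) (h2 : ∀ n : ℤ, z.im ≠ n)
    (h3 : ∀ n : ℤ, z.re + z.im ≠ n) (h4 : ∀ n : ℤ, z.re - z.im ≠ n) (i : Fin 4 × ℤ × ℤ) :
    z ∉ frontier (F i) := by
  obtain ⟨k, m, n⟩ := i
  rcases fin4 k with rfl | rfl | rfl | rfl
  · change z ∉ frontier (mv 1 1 sq1 sq1 (2 * m) (2 * n) '' base)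
    rw [mem_frontier_mv]
    rintro ⟨⟨g1, g2, g3⟩, g4⟩
    apply g4
    refine ⟨lt_of_le_of_ne g1 ?_, lt_of_le_of_ne g2 ?_, lt_of_le_of_ne g3 ?_⟩
    · intro h; apply h1 (2 * m); push_cast; linarith
    · intro h; apply h2 (2 * n); push_cast; linarith
    · intro h; apply h3 (2 * m + 2 * n + 2); push_cast; linarith
  · change z ∉ frontier (mv (-1) 1 sqm sq1 (2 * m) (1 + 2 * n) '' base)
    rw [mem_frontier_mv]
    rintro ⟨⟨g1, g2, g3⟩, g4⟩
    apply g4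
    refine ⟨lt_of_le_of_ne g1 ?_, lt_of_le_of_ne g2 ?_, lt_of_le_of_ne g3 ?_⟩
    · intro h; apply h1 (2 * m); push_cast; linarith
    · intro h; apply h2 (1 + 2 * n); push_cast; linarith
    · intro h; apply h4 (2 * m - 2 * n - 3); push_cast; linarith
  · change z ∉ frontier (mv 1 (-1) sq1 sqm (1 + 2 * m) (2 * n) '' base)
    rw [mem_frontier_mv]
    rintro ⟨⟨g1, g2, g3⟩, g4⟩
    apply g4
    refine ⟨lt_of_le_of_ne g1 ?_, lt_of_le_of_ne g2 ?_, lt_of_le_of_ne g3 ?_⟩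
    · intro h; apply h1 (1 + 2 * m); push_cast; linarith
    · intro h; apply h2 (2 * n); push_cast; linarith
    · intro h; apply h4 (2 * m - 2 * n + 3); push_cast; linarith
  · change z ∉ frontier (mv (-1) (-1) sqm sqm (1 + 2 * m) (1 + 2 * n) '' base)
    rw [mem_frontier_mv]
    rintro ⟨⟨g1, g2, g3⟩, g4⟩
    apply g4
    refine ⟨lt_of_le_of_ne g1 ?_, lt_of_le_of_ne g2 ?_, lt_of_le_of_ne g3 ?_⟩
    · intro h; apply h1 (1 + 2 * m); push_cast; linarith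
    · intro h; apply h2 (1 + 2 * n); push_cast; linarith
    · intro h; apply h3 (2 * m + 2 * n); push_cast; linarith

/-- Multiples of one tenth that are not integers. -/
theorem not_int (a : ℤ) (ha : ¬ (10 ∣ a)) (n : ℤ) : (a : ℝ) / 10 ≠ n := by
  intro h
  apply ha
  have : (a : ℝ) = 10 * n := by linarith
  have h2 : a = 10 * n := by exact_mod_cast this
  exact ⟨n, h2⟩

/-- The two tiles over a point of the grid `ℤ/10 + ℤ/10 i` in general position. -/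
theorem pt (a b : ℤ) (h1 : ¬ (10 ∣ a)) (h2 : ¬ (10 ∣ b)) (h3 : ¬ (10 ∣ a + b)) (h4 : ¬ (10 ∣ a - b))
    (P Q U V : ℤ) (eP : 10 * P ≤ a ∧ a < 10 * P + 10) (eQ : 10 * Q ≤ b ∧ b < 10 * Q + 10)
    (eU : 10 * U ≤ a + b ∧ a + b < 10 * U + 10) (eV : 10 * V ≤ a - b ∧ a - b < 10 * V + 10)
    (s t : Fin 4 × ℤ × ℤ) (hst : ∀ k m n, fc P Q U V (k, m, n) → (k, m, n) = s ∨ (k, m, n) = t) :
    (∀ i, (⟨(a : ℝ) / 10, (b : ℝ) / 10⟩ : ℂ) ∉ frontier (F i)) ∧
      ∀ i, (⟨(a : ℝ) / 10, (b : ℝ) / 10⟩ : ℂ) ∈ interior (F i) → i = s ∨ i = t := by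
  have hf : ∀ i, (⟨(a : ℝ) / 10, (b : ℝ) / 10⟩ : ℂ) ∉ frontier (F i) := by
    apply not_frontier
    · exact not_int a h1
    · exact not_int b h2
    · intro n
      have := not_int (a + b) h3 n
      change (a : ℝ) / 10 + (b : ℝ) / 10 ≠ n
      push_cast at this
      rwa [add_div] at this
    · intro n
      have := not_int (a - b) h4 n
      change (a : ℝ) / 10 - (b : ℝ) / 10 ≠ n
      push_cast at this
      rwa [sub_div] at this
  refine ⟨hf, ?_⟩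
  intro i hi
  rw [interior_iff i (hf i)] at hi
  have f1 : ⌊(⟨(a : ℝ) / 10, (b : ℝ) / 10⟩ : ℂ).re⌋ = P := by
    rw [Int.floor_eq_iff]
    change (P : ℝ) ≤ (a : ℝ) / 10 ∧ (a : ℝ) / 10 < P + 1
    have l1 : (10 : ℝ) * P ≤ a := by exact_mod_cast eP.1
    have l2 : (a : ℝ) < 10 * P + 10 := by exact_mod_cast eP.2
    constructor <;> linarith
  have f2 : ⌊(⟨(a : ℝ) / 10, (b : ℝ) / 10⟩ : ℂ).im⌋ = Q := by
    rw [Int.floor_eq_iff]
    change (Q : ℝ) ≤ (b : ℝ) / 10 ∧ (b : ℝ) / 10 < Q + 1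
    have l1 : (10 : ℝ) * Q ≤ b := by exact_mod_cast eQ.1
    have l2 : (b : ℝ) < 10 * Q + 10 := by exact_mod_cast eQ.2
    constructor <;> linarith
  have f3 : ⌊(⟨(a : ℝ) / 10, (b : ℝ) / 10⟩ : ℂ).re + (⟨(a : ℝ) / 10, (b : ℝ) / 10⟩ : ℂ).im⌋ = U := by
    rw [Int.floor_eq_iff]
    change (U : ℝ) ≤ (a : ℝ) / 10 + (b : ℝ) / 10 ∧ (a : ℝ) / 10 + (b : ℝ) / 10 < U + 1
    have l1 : (10 : ℝ) * U ≤ a + b := by exact_mod_cast eU.1
    have l2 : (a : ℝ) + b < 10 * U + 10 := by exact_mod_cast eU.2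
    constructor <;> linarith
  have f4 : ⌊(⟨(a : ℝ) / 10, (b : ℝ) / 10⟩ : ℂ).re - (⟨(a : ℝ) / 10, (b : ℝ) / 10⟩ : ℂ).im⌋ = V := by
    rw [Int.floor_eq_iff]
    change (V : ℝ) ≤ (a : ℝ) / 10 - (b : ℝ) / 10 ∧ (a : ℝ) / 10 - (b : ℝ) / 10 < V + 1
    have l1 : (10 : ℝ) * V ≤ a - b := by exact_mod_cast eV.1
    have l2 : (a : ℝ) - b < 10 * V + 10 := by exact_mod_cast eV.2
    constructor <;> linarith
  rw [f1, f2, f3, f4] at hi
  obtain ⟨k, m, n⟩ := i
  exact hst k m n hi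

/-- The 3-cycle of tiles. -/
def tt : ℕ → Fin 4 × ℤ × ℤ
  | 0 => (0, 0, 0)
  | 1 => (2, 0, 1)
  | 2 => (1, 1, 0)
  | _ => (0, 0, 0)

/-- The points in the pairwise overlaps. -/
noncomputable def zz : ℕ → ℂ
  | 0 => ⟨((12 : ℤ) : ℝ) / 10, ((5 : ℤ) : ℝ) / 10⟩
  | 1 => ⟨((14 : ℤ) : ℝ) / 10, ((15 : ℤ) : ℝ) / 10⟩
  | _ => ⟨((5 : ℤ) : ℝ) / 10, ((12 : ℤ) : ℝ) / 10⟩

theorem irreducible : ¬ Reducible F := by
  apply not_reducible_of_cycle 1 tt zz rfl
  intro m hm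
  interval_cases m
  · apply pt 12 5 (by decide) (by decide) (by decide) (by decide) 1 0 1 0 (by decide) (by decide) (by decide)
      (by decide)
    intro k m n
    rcases fin4 k with rfl | rfl | rfl | rfl <;> simp [fc, tt] <;> omega
  · apply pt 14 15 (by decide) (by decide) (by decide) (by decide) 1 1 2 (-1) (by decide) (by decide) (by decide)
      (by decide)
    intro k m n
    rcases fin4 k with rfl | rfl | rfl | rfl <;> simp [fc, tt] <;> omega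
  · apply pt 5 12 (by decide) (by decide) (by decide) (by decide) 0 1 1 (-1) (by decide) (by decide) (by decide)
      (by decide)
    intro k m n
    rcases fin4 k with rfl | rfl | rfl | rfl <;> simp [fc, tt] <;> omega

/-- There is a triangle that is the prototile of an irreducible monohedral multiple tiling of density two. -/
theorem result : ∃ P : Set ℂ, IsTriangle P ∧ ∃ (ι : Type) (F : ι → Set ℂ),
    IsMultipleTiling F 2 ∧ Monohedral F P ∧ ¬ Reducible F :=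
  ⟨base, ⟨vtx, vtx_aff, base_eq⟩, Fin 4 × ℤ × ℤ, F, F_tiling, fun i => ⟨pl i, rfl⟩, irreducible⟩

end Pool.Agent.Results.MP_5dc1dd_co.Triangle
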